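import Pool.Agent.BKW.Stmts

/-!
Row MRS of BKW.
-/

namespace Pool.Agent.BKW.H65

open Pool.Agent.BKW

/-- Row MRS. -/
theorem mrs : MrsStmt := by
  intro n hn h
  refine ⟨(n + 1).primeFactorsList.length, ?_⟩
  apply Nat.eq_prime_pow_of_unique_prime_dvd (by omega)
  intro d hd hdn
  have h1 : d ∣ n ^ 2 - 1 := by
    have e : n ^ 2 - 1 = (n + 1) * (n - 1) := by
      have := Nat.sq_sub_sq n 1
      simpa using this
    rw [e]
    exact Dvd.dvd.mul_right hdn _
  have h2 := h d hd h1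
  have h3 : d ∣ (n + 1) - (n - 1) := Nat.dvd_sub hdn h2
  have h4 : (n + 1) - (n - 1) = 2 := by omega
  rw [h4] at h3
  exact (Nat.prime_dvd_prime_iff_eq hd Nat.prime_two).mp h3

end Pool.Agent.BKW.H65
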